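import Mathlib
import Pool.Graph.R_seed8.Results.MP_2c9a54_an.Classification
import Pool.Agent.KS6_9.Rec.Limit
import Pool.Agent.KS6_9.Rec.Expo

set_option autoImplicit false

/-! MP_2c9a54_an: the complete asymptotic picture. For every nonnegative coefficient of least period
`k ≥ 2` exactly one of three things happens: all positive solutions are attracted by one periodic
solution of period `k`; all positive solutions are bounded but there is no such attractor; all
positive solutions are unbounded. -/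

open Filter Topology

namespace Pool.Agent.Results.MP_2c9a54_an.Trichotomy

open Pool.Agent.Results.MP_2c9a54_an.Classification (IsSol Contracting Interlaced sol_pos B_bdd
  exists_sol suff_contracting suff_interlaced)
open Pool.Agent.Results.MP_2c9a54_an.Positive (Sol)
open Pool.Agent.KS6_9.Rec

variable {k : ℕ} {B : ZMod k → ℝ}

lemma sol_iff (hB : ∀ m, 0 ≤ B m) (x : ℕ → ℝ) :
    IsSol B x ↔ Sol (fun n => B (n : ZMod k)) x :=
  ⟨fun h => ⟨sol_pos hB h, h.2.2⟩, fun h => ⟨h.1 0, h.1 1, h.2⟩⟩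

/-- a solution with given initial values -/
lemma exists_init (B : ZMod k → ℝ) (u v : ℝ) (hu : 0 < u) (hv : 0 < v) :
    ∃ x, IsSol B x ∧ x 0 = u ∧ x 1 = v := by
  let p : ℕ → ℝ × ℝ := fun n => Nat.rec (u, v)
    (fun n q => (q.2, 1 / (B (n : ZMod k) * q.2 + q.1))) n
  exact ⟨fun n => (p n).1, ⟨hu, hv, fun n => rfl⟩, rfl, rfl⟩

/-- a parity class of zeros, in terms of the indices -/
lemma parity_zero [NeZero k] {m : ZMod k} (h : ∀ j : ℕ, B (m + 2 * j) = 0) :
    ∃ r : ℕ, r < 2 ∧ ∀ j : ℕ, B ((r + 2 * j : ℕ) : ZMod k) = 0 := by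
  refine ⟨m.val % 2, Nat.mod_lt _ (by norm_num), fun j => ?_⟩
  have hk : 1 ≤ k := NeZero.one_le
  have h1 := h (k * (m.val / 2) - m.val / 2 + j)
  have h2 : m.val / 2 ≤ k * (m.val / 2) := Nat.le_mul_of_pos_left _ hk
  have e : m + 2 * ((k * (m.val / 2) - m.val / 2 + j : ℕ) : ZMod k)
      = ((m.val % 2 + 2 * j : ℕ) : ZMod k) := by
    have h3 : (m.val : ZMod k) = m := ZMod.natCast_zmod_val m
    have h4 : ((m.val % 2 + 2 * (m.val / 2) : ℕ) : ZMod k) = m := by
      rw [Nat.mod_add_div, h3]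
    have h5 : ((k * (m.val / 2) - m.val / 2 + j : ℕ) : ZMod k)
        = -((m.val / 2 : ℕ) : ZMod k) + j := by
      rw [Nat.cast_add, Nat.cast_sub h2]
      push_cast
      rw [ZMod.natCast_self]
      ring
    have h6 : ((m.val % 2 : ℕ) : ZMod k) + 2 * ((m.val / 2 : ℕ) : ZMod k) = m := by
      rw [← Nat.cast_ofNat (R := ZMod k) (n := 2), ← Nat.cast_mul, ← Nat.cast_add]
      exact h4
    rw [h5, Nat.cast_add, Nat.cast_mul]
    push_cast
    linear_combination -h6
  rw [← e]
  exact h1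

lemma not_both [NeZero k] (hc : Contracting B) : ¬ ∃ i : ℕ, ∀ j : ℕ, B ((i + 2 * j : ℕ) : ZMod k) = 0 := by
  rintro ⟨i, h⟩
  obtain ⟨j, hj⟩ := hc.1 (i : ZMod k)
  apply hj
  have := h (2 * j)
  rw [← this]
  congr 1
  push_cast
  ring

/-- no attractor if the coefficient vanishes along a parity class -/
lemma no_attractor {r : ℕ} (hr : r < 2)
    (hz : ∀ j : ℕ, B ((r + 2 * j : ℕ) : ZMod k) = 0) :
    ¬ ∃ L : ℕ → ℝ, ∀ x, IsSol B x → Tendsto (fun n => x n - L n) atTop (𝓝 0) := by
  rintro ⟨L, hL⟩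
  have hper : ∀ x, IsSol B x → ∀ j : ℕ, x (r + 4 * j) = x r := by
    intro x hx j
    have h1 : ∀ i : ℕ, x (r + 2 * i + 2) = 1 / x (r + 2 * i) := by
      intro i
      rw [hx.2.2, hz i, zero_mul, zero_add]
    induction j with
    | zero => rfl
    | succ j ih =>
      have e1 := h1 (2 * j)
      have e2 := h1 (2 * j + 1)
      rw [show r + 4 * (j + 1) = r + 2 * (2 * j + 1) + 2 by ring, e2,
        show r + 2 * (2 * j + 1) = r + 2 * (2 * j) + 2 by ring, e1,
        show r + 2 * (2 * j) = r + 4 * j by ring, ih, one_div_one_div]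
  obtain ⟨x, hx, x0, x1⟩ := exists_init B 1 1 one_pos one_pos
  obtain ⟨y, hy, y0, y1⟩ := exists_init B 2 2 two_pos two_pos
  have hxr : x r = 1 := by
    interval_cases r
    · exact x0
    · exact x1
  have hyr : y r = 2 := by
    interval_cases r
    · exact y0
    · exact y1
  have h1 := (hL y hy).sub (hL x hx)
  have h2 : Tendsto (fun j : ℕ => r + 4 * j) atTop atTop :=
    tendsto_atTop_mono (fun j => by show j ≤ r + 4 * j; omega) tendsto_id
  have h3 := h1.comp h2
  have h4 : Tendsto (fun _ : ℕ => (1 : ℝ)) atTop (𝓝 (0 - 0)) := by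
    refine h3.congr fun j => ?_
    show y (r + 4 * j) - L (r + 4 * j) - (x (r + 4 * j) - L (r + 4 * j)) = 1
    rw [hper x hx j, hper y hy j, hxr, hyr]
    ring
  have h5 := tendsto_nhds_unique h4 tendsto_const_nhds
  norm_num at h5

lemma attractor [NeZero k] (hB : ∀ m, 0 ≤ B m) (hc : Contracting B) :
    ∃ L : ℕ → ℝ, (IsSol B L ∧ ∀ n, L (n + k) = L n) ∧
      (∀ L' q, IsSol B L' → 1 ≤ q → (∀ n, L' (n + q) = L' n) → L' = L) ∧
      ∀ x, IsSol B x → Tendsto (fun n => x n - L n) atTop (𝓝 0) := by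
  have hk : 1 ≤ k := NeZero.one_le
  set b : ℕ → ℝ := fun n => B (n : ZMod k) with hbdef
  have hb : ∀ n, 0 ≤ b n := fun n => hB _
  have hp : ∀ n, b (n + k) = b n := fun n => by
    simp only [hbdef]
    congr 1
    push_cast
    rw [ZMod.natCast_self, add_zero]
  have hpar : ¬ ∃ i, ∀ j, b (i + 2 * j) = 0 := not_both hc
  obtain ⟨β, hβ0, hβ⟩ := B_bdd B
  have hbd : ∀ x, IsSol B x → ∃ m M : ℝ, 0 < m ∧ m ≤ M ∧ ∀ n, m ≤ x n ∧ x n ≤ M := fun x hx =>
    two_sided hβ0 hb (fun n => hβ _) ((sol_iff hB x).1 hx) (suff_contracting hB hc hx)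
  have has : ∀ x y, IsSol B x → IsSol B y → Tendsto (fun n => x n - y n) atTop (𝓝 0) := by
    intro x y hx hy
    obtain ⟨m, M, hm, hmM, h1⟩ := hbd x hx
    obtain ⟨m', M', hm', hmM', h2⟩ := hbd y hy
    exact asym hk hb hp hpar ((sol_iff hB x).1 hx) ((sol_iff hB y).1 hy) (lt_min hm hm')
      (fun n => ⟨(min_le_left _ _).trans (h1 n).1, (h1 n).2.trans (le_max_left M M')⟩)
      (fun n => ⟨(min_le_right _ _).trans (h2 n).1, (h2 n).2.trans (le_max_right M M')⟩)
  obtain ⟨x, hx⟩ := exists_sol B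
  obtain ⟨m, M, hm, hmM, h1⟩ := hbd x hx
  obtain ⟨L, hL, hLp⟩ := exists_per hk hb hp hpar ((sol_iff hB x).1 hx) hm h1
  have hL' := (sol_iff hB L).2 hL
  refine ⟨L, ⟨hL', hLp⟩, fun L' q h2 hq h3 => ?_, fun x hx => has x L hx hL'⟩
  funext n
  have e1 : ∀ j, L (n + j * (q * k)) = L n := by
    intro j
    have hf : Function.Periodic L k := hLp
    have := hf.nat_mul (j * q) n
    rw [← this]
    congr 1
    push_cast
    ring
  have e2 : ∀ j, L' (n + j * (q * k)) = L' n := by
    intro j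
    have hf : Function.Periodic L' q := h3
    have := hf.nat_mul (j * k) n
    rw [← this]
    congr 1
    push_cast
    ring
  have h5 : Tendsto (fun j : ℕ => n + j * (q * k)) atTop atTop := by
    refine tendsto_atTop_mono (fun j => ?_) tendsto_id
    have h6 : 1 ≤ q * k := Nat.mul_pos hq hk
    have h7 : j * 1 ≤ j * (q * k) := Nat.mul_le_mul_left j h6
    simp only [id]
    omega
  have h6 : Tendsto (fun _ : ℕ => L' n - L n) atTop (𝓝 0) := by
    refine ((has L' L h2 hL').comp h5).congr fun j => ?_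
    show L' (n + j * (q * k)) - L (n + j * (q * k)) = _
    rw [e1, e2]
  have h7 := tendsto_nhds_unique h6 tendsto_const_nhds
  linarith

/-- **Trichotomy.** Let `k ≥ 2` and let `B ≥ 0` have least period `k`. Exactly one of the following
holds: (1) `B` is contracting: there is a positive solution `L` of period `k` which attracts all
positive solutions, and `L` is the only periodic positive solution of any period; (2) `B` is
interlaced with zeros: all positive solutions are bounded, but no sequence attracts all of them;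
(3) neither: all positive solutions are unbounded. In particular all positive solutions are bounded
if and only if (1) or (2) holds. If all `B m` are positive, then (1) holds if and only if `3` does
not divide `k` or the three products are less than `1`, there is a periodic positive solution of
some period if and only if this is so, and then the attraction is exponentially fast. -/
theorem result (k : ℕ) (hk : 2 ≤ k) (B : ZMod k → ℝ) (hB : ∀ m, 0 ≤ B m)
    (hleast : ∀ p : ℕ, 1 ≤ p → p < k → ∃ n : ℕ, B ((n + p : ℕ) : ZMod k) ≠ B (n : ZMod k)) :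
    (Contracting B → ¬ Interlaced B ∧
      ∃ L : ℕ → ℝ, (IsSol B L ∧ ∀ n, L (n + k) = L n) ∧
        (∀ L' q, IsSol B L' → 1 ≤ q → (∀ n, L' (n + q) = L' n) → L' = L) ∧
        ∀ x, IsSol B x → Tendsto (fun n => x n - L n) atTop (𝓝 0)) ∧
    (Interlaced B → (∀ x, IsSol B x → BddAbove (Set.range x)) ∧
      ¬ ∃ L : ℕ → ℝ, ∀ x, IsSol B x → Tendsto (fun n => x n - L n) atTop (𝓝 0)) ∧
    (¬ (Contracting B ∨ Interlaced B) → ∀ x, IsSol B x → ¬ BddAbove (Set.range x)) ∧
    ((∀ x, IsSol B x → BddAbove (Set.range x)) ↔ (Contracting B ∨ Interlaced B)) ∧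
    ((∀ m, 0 < B m) →
      (Contracting B ↔ (3 ∣ k → ∀ m : ZMod k, ∏ i ∈ Finset.range (k / 3),
        B (m + 3 * i) / (1 + B (m + 3 * i) * B (m + 3 * i + 2)) < 1)) ∧
      (Contracting B ↔ ∃ q, 1 ≤ q ∧ ∃ L, IsSol B L ∧ ∀ n, L (n + q) = L n) ∧
      (Contracting B → ∀ x y, IsSol B x → IsSol B y →
        ∃ C θ : ℝ, 0 ≤ C ∧ 0 < θ ∧ θ < 1 ∧ ∀ n, |x n - y n| ≤ C * θ ^ n)) := by
  have : NeZero k := ⟨by omega⟩
  obtain ⟨c1, c2, c3⟩ := Pool.Agent.Results.MP_2c9a54_an.Classification.result k hk B hB hleast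
  have hp : ∀ n : ℕ, (fun n : ℕ => B (n : ZMod k)) (n + k) = (fun n : ℕ => B (n : ZMod k)) n := by
    intro n
    show B ((n + k : ℕ) : ZMod k) = B (n : ZMod k)
    congr 1
    push_cast
    rw [ZMod.natCast_self, add_zero]
  have hni : (∀ m, 0 < B m) → ¬ Interlaced B := by
    rintro hpos ⟨m, hz, -⟩
    exact (hpos _).ne' (hz 0)
  refine ⟨fun hc => ⟨?_, attractor hB hc⟩, fun hi => ⟨?_, ?_⟩, c2, c1, fun hpos => ⟨?_, ?_, ?_⟩⟩
  · rintro ⟨m, hz, -⟩
    obtain ⟨r, -, hr⟩ := parity_zero hz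
    exact not_both hc ⟨r, hr⟩
  · exact c1.2 (Or.inr hi)
  · obtain ⟨m, hz, -⟩ := hi
    obtain ⟨r, hr2, hr⟩ := parity_zero hz
    exact no_attractor hr2 hr
  · rw [← c3 hpos, c1]
    exact ⟨Or.inl, fun h => h.resolve_right (hni hpos)⟩
  · constructor
    · intro hc
      obtain ⟨L, hL, -⟩ := attractor hB hc
      exact ⟨k, by omega, L, hL⟩
    · rintro ⟨q, hq, L, hL, hLq⟩
      have hbL : BddAbove (Set.range L) := Pool.Agent.KS6_9.RecExpo.per_bdd hq hLq
      have hall : ∀ x, IsSol B x → BddAbove (Set.range x) := fun x hx =>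
        all_bdd (fun n => hB _) ((sol_iff hB L).1 hL) ((sol_iff hB x).1 hx) hbL
      exact (c1.1 hall).resolve_right (hni hpos)
  · intro hc x y hx hy
    exact Pool.Agent.KS6_9.RecExpo.expo (by omega : 1 ≤ k) (fun n => hpos _) hp
      ((sol_iff hB x).1 hx) ((sol_iff hB y).1 hy) (suff_contracting hB hc hx)
      (suff_contracting hB hc hy)

end Pool.Agent.Results.MP_2c9a54_an.Trichotomy
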